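import Mathlib

/-!
# From abelian to solvable normal subgroups

If a group has no nontrivial abelian normal subgroup, then it has no nontrivial solvable normal
subgroup: the last nontrivial term of the derived series of a solvable normal subgroup is abelian and
characteristic in it.
-/

set_option autoImplicit false

open scoped commutatorElement

namespace ALoop

theorem solvable_bot {M : Type*} [Group M]
    (hab : ∀ R : Subgroup M, R.Normal → (∀ a ∈ R, ∀ b ∈ R, a * b = b * a) → R = ⊥)
    (R : Subgroup M) (hR : R.Normal) (hs : Group.IsSolvable R) : R = ⊥ := by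
  obtain ⟨n, hn⟩ := hs.solvable
  have key : ∀ k, derivedSeries R k = ⊥ := by
    by_contra hcon
    push Not at hcon
    obtain ⟨k, hk⟩ := hcon
    -- the last nontrivial term
    have hex : ∃ m, derivedSeries R m = ⊥ := ⟨n, hn⟩
    classical
    set m := Nat.find hex with hm
    have hmb : derivedSeries R m = ⊥ := Nat.find_spec hex
    rcases Nat.eq_zero_or_pos m with h0 | hpos
    · rw [h0] at hmb
      apply hk
      exact le_bot_iff.1 (hmb ▸ derivedSeries_antitone R (Nat.zero_le k))
    · obtain ⟨j, hj⟩ : ∃ j, m = j + 1 := ⟨m - 1, by omega⟩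
      have hj0 : derivedSeries R j ≠ ⊥ := Nat.find_min hex (by omega)
      have hcomm : ⁅derivedSeries R j, derivedSeries R j⁆ = ⊥ := by
        rw [← derivedSeries_succ, ← hj]; exact hmb
      have hN : ((derivedSeries R j).map R.subtype).Normal :=
        ConjAct.normal_of_characteristic_of_normal
      have hbot := hab ((derivedSeries R j).map R.subtype) hN (by
        rintro _ ⟨a, ha, rfl⟩ _ ⟨b, hb, rfl⟩
        have h1 : ⁅a, b⁆ ∈ ⁅derivedSeries R j, derivedSeries R j⁆ :=
          Subgroup.commutator_mem_commutator ha hb
        rw [hcomm, Subgroup.mem_bot, commutatorElement_eq_one_iff_mul_comm] at h1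
        exact congrArg R.subtype h1)
      rw [Subgroup.map_eq_bot_iff_of_injective _ (Subgroup.subtype_injective R)] at hbot
      exact hj0 hbot
  have h0 := key 0
  rw [derivedSeries_zero] at h0
  rw [eq_bot_iff]
  intro x hx
  have h1 : (⟨x, hx⟩ : R) ∈ (⊤ : Subgroup R) := Subgroup.mem_top _
  rw [h0, Subgroup.mem_bot] at h1
  exact Subgroup.mem_bot.2 (congrArg Subtype.val h1)

end ALoop
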