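import Mathlib

set_option autoImplicit false

namespace ALoop

theorem abelian_bot {M : Type*} [Group M] [Finite M] (K : Subgroup M)
    (hp : ∀ p : ℕ, p.Prime → ∀ R : Subgroup M, R ≤ K → IsPGroup p R →
      (∀ a ∈ R, ∀ b ∈ R, a * b = b * a) → (∀ g ∈ K, ∀ a ∈ R, g * a * g⁻¹ ∈ R) → R = ⊥)
    (R : Subgroup M) (hRK : R ≤ K) (hcomm : ∀ a ∈ R, ∀ b ∈ R, a * b = b * a)
    (hnorm : ∀ g ∈ K, ∀ a ∈ R, g * a * g⁻¹ ∈ R) : R = ⊥ := by
  by_contra hne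
  have h1 : Nat.card R ≠ 1 := fun h => hne (Subgroup.card_eq_one.1 h)
  obtain ⟨p, hpp, hpd⟩ := Nat.exists_prime_and_dvd h1
  have : Fact p.Prime := ⟨hpp⟩
  let P : Subgroup M :=
    { carrier := {a | a ∈ R ∧ ∃ k : ℕ, a ^ p ^ k = 1}
      one_mem' := ⟨R.one_mem, 0, one_pow _⟩
      mul_mem' := by
        rintro a b ⟨ha, i, hi⟩ ⟨hb, j, hj⟩
        refine ⟨R.mul_mem ha hb, i + j, ?_⟩
        have hab : Commute a b := hcomm a ha b hb
        rw [hab.mul_pow, pow_add, pow_mul, hi, one_pow, one_mul, mul_comm, pow_mul, hj, one_pow]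
      inv_mem' := by
        rintro a ⟨ha, i, hi⟩
        exact ⟨R.inv_mem ha, i, by rw [inv_pow, hi, inv_one]⟩ }
  have hP := hp p hpp P (fun a ha => hRK ha.1) (by
    rintro ⟨a, ha, k, hk⟩
    exact ⟨k, Subtype.ext hk⟩) (fun a ha b hb => hcomm a ha.1 b hb.1) (by
    rintro g hg a ⟨ha, k, hk⟩
    exact ⟨hnorm g hg a ha, k, by rw [conj_pow, hk, mul_one, mul_inv_cancel]⟩)
  obtain ⟨a, ha⟩ := exists_prime_orderOf_dvd_card' (G := R) p hpd
  have h2 : (a : M) ∈ P := ⟨a.2, 1, by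
    rw [pow_one, ← ha]
    exact congrArg Subtype.val (pow_orderOf_eq_one a)⟩
  rw [hP, Subgroup.mem_bot] at h2
  have h3 : a = 1 := Subtype.ext h2
  rw [h3, orderOf_one] at ha
  exact hpp.one_lt.ne ha

end ALoop
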