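import Pool.Agent.H4.NS.Main
import Pool.Agent.H4.NS.Red1
import Pool.Agent.H4.NS.Red2

set_option autoImplicit false

/-!
The inner mapping group has no nontrivial solvable normal subgroup and is not solvable.
-/

namespace ALoop

open Equiv

variable {Q : Type*} {G : Subgroup (Perm Q)} {L : Q → Perm Q} {J : Perm Q} {e : Q}

namespace AL

theorem no_solvable [Finite Q] (h : AL G L J e) (hcardQ : 2 ∣ Nat.card Q)
    (A : Subgroup (Inn G e)) (hA : A.Normal) (hs : Group.IsSolvable A) : A = ⊥ := by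
  refine solvable_bot ?_ A hA hs
  intro R hR hcomm
  rw [← Subgroup.map_eq_bot_iff_of_injective R (Inn G e).subtype_injective]
  refine abelian_bot (Inn G e) (fun p hp R hR hRp hc hn => h.no_abelian_p hcardQ hp hR hRp hc hn)
    _ (Subgroup.map_subtype_le R) ?_ ?_
  · rintro _ ⟨a, ha, rfl⟩ _ ⟨b, hb, rfl⟩
    exact congrArg Subtype.val (hcomm a ha b hb)
  · rintro g hg _ ⟨a, ha, rfl⟩
    exact ⟨⟨g, hg⟩ * a * (⟨g, hg⟩)⁻¹, hR.conj_mem a ha ⟨g, hg⟩, rfl⟩

theorem not_solvable [Finite Q] (h : AL G L J e) (hcardQ : 2 ∣ Nat.card Q) :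
    ¬ Group.IsSolvable (Inn G e) := by
  intro hs
  have h1 := h.no_solvable hcardQ ⊤ inferInstance
    (Group.isSolvable_of_surjective (f := (Subgroup.topEquiv (G := Inn G e)).symm.toMonoidHom)
      (Subgroup.topEquiv (G := Inn G e)).symm.surjective)
  obtain ⟨S, hS⟩ := exists_syl (Inn G e)
  obtain ⟨x, hxe, hJx, -⟩ := h.exists_x2 hcardQ hS
  have hzZ := h.zx_mem hJx hxe
  have hz : (⟨D L J x * J, h.Z_mem hzZ, h.zx_e hJx hxe⟩ : Inn G e) ∈ (⊤ : Subgroup (Inn G e)) :=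
    Subgroup.mem_top _
  rw [h1, Subgroup.mem_bot] at hz
  exact h.Z_ne hzZ (congrArg Subtype.val hz)

end AL

end ALoop
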