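import Pool.Agent.H4.FD.PsetB

set_option autoImplicit false

/-!
The key lemma: `b` commutes with its conjugate under `L x`, if `b` is inverted by `D x`.
-/

namespace ALoop

open Equiv

theorem comm_of_sq {M : Type*} [Group M] {a c : M} {n : ℕ} (hn : Odd n) (ha : a ^ n = 1)
    (h : a * a * c = c * (a * a)) : a * c = c * a := by
  obtain ⟨k, rfl⟩ := hn
  have h1 : Commute (a ^ 2) c := by
    show a ^ 2 * c = c * a ^ 2
    rw [pow_two]; exact h
  have h2 : a = ((a ^ 2) ^ k)⁻¹ := by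
    rw [pow_succ, pow_mul] at ha
    exact eq_inv_of_mul_eq_one_right ha
  have h3 : Commute a c := by
    rw [h2]
    exact (h1.pow_left k).inv_left
  exact h3.eq

variable {Q : Type*} {G : Subgroup (Perm Q)} {L : Q → Perm Q} {J : Perm Q} {e : Q}

namespace AL

theorem key_comm (h : AL G L J e) {x : Q} (hJx : J x = x) {b : Perm Q}
    (hb : b ∈ Inn G e) {n : ℕ} (hn : Odd n) (hbn : b ^ n = 1)
    (hzb : D L J x * b * D L J x = b⁻¹) :
    ((L x)⁻¹ * b * L x) * D L J x = D L J x * ((L x)⁻¹ * b * L x) ∧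
    J * ((L x)⁻¹ * b * L x) * J = ((L x)⁻¹ * b * L x)⁻¹ ∧
    ((L x)⁻¹ * b * L x) * b = b * ((L x)⁻¹ * b * L x) := by
  have hLxx := h.LxLx hJx
  have hbJ : b * J = J * b := h.comJ b hb.1 hb.2
  have hLG := h.memL x
  have hLie : (L x)⁻¹ e = x := by rw [Perm.inv_eq_iff_eq]; exact hLxx.symm
  have hDD := h.D_sq x
  have hDx : (L x)⁻¹ * J * L x = D L J x := by
    have h1 := h.D_conj (G.inv_mem hLG) e
    rw [h.D_e, hLie, inv_inv] at h1
    exact h1
  set r := (L x)⁻¹ * b * L x with hr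
  have hrG : r ∈ G := G.mul_mem (G.mul_mem (G.inv_mem hLG) hb.1) hLG
  have hrn : r ^ n = 1 := by
    have h1 : r ^ n = (L x)⁻¹ * b ^ n * L x := by
      have h2 := conj_pow (i := n) (a := (L x)⁻¹) (b := b)
      rw [inv_inv] at h2
      exact h2
    rw [h1, hbn, mul_one, inv_mul_cancel]
  -- `r` commutes with `D x`
  have c1 : r * D L J x = D L J x * r := by
    rw [← hDx, hr]
    calc (L x)⁻¹ * b * L x * ((L x)⁻¹ * J * L x) = (L x)⁻¹ * (b * J) * L x := by group
      _ = (L x)⁻¹ * (J * b) * L x := by rw [hbJ]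
      _ = (L x)⁻¹ * J * L x * ((L x)⁻¹ * b * L x) := by group
  have hrx : r x = x := (h.D_cent hrG x).1 c1
  -- `J` inverts `r`
  have hJd : J = (L x)⁻¹ * D L J x * L x := by unfold D; group
  have c2 : J * r * J = r⁻¹ := by
    have h1 : J * r * J = (L x)⁻¹ * (D L J x * b * D L J x) * L x := by
      have h2 : J * r * J = ((L x)⁻¹ * D L J x * L x) * r * ((L x)⁻¹ * D L J x * L x) := by
        rw [← hJd]
      rw [h2, hr]; group
    rw [h1, hzb, hr]; group
  refine ⟨c1, c2, ?_⟩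
  -- the element `y`
  set y := r e with hy
  have hLxy : L x y = b x := by
    rw [hy, hr]
    show L x ((L x)⁻¹ (b (L x e))) = b x
    rw [apply_inv', h.Le]
  obtain ⟨hkG, hke⟩ := h.fix_part hrG
  rw [← hy] at hkG hke
  set k := (L y)⁻¹ * r with hk
  have hkJ : k * J = J * k := h.comJ k hkG hke
  have hLy : L y = r * k⁻¹ := by rw [hk]; group
  have hJJ := h.JJ1
  -- `r` commutes with `k`
  have c3 : r * k⁻¹ = k⁻¹ * r := by
    have hkiJ : J * k⁻¹ * J = k⁻¹ := by
      have h1 : J * k * J = k := by rw [← hkJ, mul_assoc, hJJ, mul_one]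
      have h2 : (J * k * J)⁻¹ = J * k⁻¹ * J := h.Jmulinv k
      rw [← h2, h1]
    have h1 : J * L y * J = r⁻¹ * k⁻¹ := by
      rw [hLy, h.Jmul, c2, hkiJ]
    have h2 := h.comLR y
    rw [h1, hLy] at h2
    apply comm_of_sq hn hrn
    calc r * r * k⁻¹ = r * (r * k⁻¹ * (r⁻¹ * k⁻¹)) * k * r := by group
      _ = r * (r⁻¹ * k⁻¹ * (r * k⁻¹)) * k * r := by rw [h2]
      _ = k⁻¹ * (r * r) := by group
  have c4 : r (L y x) = L y x := by
    have h1 : L y x = k⁻¹ x := by
      rw [hLy, c3]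
      show k⁻¹ (r x) = k⁻¹ x
      rw [hrx]
    rw [h1]
    show (r * k⁻¹) x = k⁻¹ x
    rw [c3]
    show k⁻¹ (r x) = k⁻¹ x
    rw [hrx]
  -- the value of `L y x`
  have hDJ : D L J x * J = J * D L J x := h.Dx_J hJx
  have hzG : D L J x * J ∈ G := by
    have h1 := h.D_mul_mem x e
    rw [h.D_e] at h1
    exact h1
  have hze : (D L J x * J) e = e := by
    apply h.centJ hzG
    rw [mul_assoc, hJJ, mul_one, hDJ, ← mul_assoc, hJJ, one_mul]
  have hDxx := h.D_self x
  have hDy : D L J y = r * J * r⁻¹ := by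
    have h1 := h.D_conj hrG e
    rw [h.D_e, ← hy] at h1
    exact h1.symm
  have hDxy : D L J x * D L J y * D L J x = D L J y := by
    rw [hDy]
    have c1' : r⁻¹ * D L J x = D L J x * r⁻¹ := by
      calc r⁻¹ * D L J x = r⁻¹ * (D L J x * r) * r⁻¹ := by group
        _ = r⁻¹ * (r * D L J x) * r⁻¹ := by rw [c1]
        _ = D L J x * r⁻¹ := by group
    calc D L J x * (r * J * r⁻¹) * D L J x = (D L J x * r) * J * (r⁻¹ * D L J x) := by group
      _ = (r * D L J x) * J * (D L J x * r⁻¹) := by rw [c1, c1']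
      _ = r * (D L J x * J) * D L J x * r⁻¹ := by group
      _ = r * (J * D L J x) * D L J x * r⁻¹ := by rw [hDJ]
      _ = r * J * (D L J x * D L J x) * r⁻¹ := by group
      _ = r * J * r⁻¹ := by rw [hDD, mul_one]
  have hzJy : (D L J x * J) (J y) = y := by
    apply h.D_inj
    rw [← h.D_conj hzG, ← h.D_J]
    have hDi : (D L J x)⁻¹ = D L J x := inv_eq_of_mul_eq_one_left hDD
    rw [mul_inv_rev, hDi, h.Jinv]
    calc D L J x * J * (J * D L J y * J) * (J * D L J x)
        = D L J x * (J * J) * D L J y * (J * J) * D L J x := by group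
      _ = D L J x * D L J y * D L J x := by rw [hJJ, mul_one, mul_one]
      _ = D L J y := hDxy
  have hzx : (D L J x * J) x = x := by
    show D L J x (J x) = x
    rw [hJx, hDxx]
  have c5 : L y x = b⁻¹ x := by
    have h1 : L (J y) x = b x := by
      have h2 := h.aaip x y
      rw [hLxy, hJx] at h2
      have h3 : J (b x) = b x := by
        show (J * b) x = b x
        rw [← hbJ]
        show b (J x) = b x
        rw [hJx]
      rw [h3] at h2
      exact h2.symm
    have h4 := h.aut hzG hze (J y) x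
    rw [hzJy, hzx, h1] at h4
    rw [← h4, ← hzb]
    show D L J x (J (b x)) = D L J x (b (D L J x x))
    have h3 : J (b x) = b x := by
      show (J * b) x = b x
      rw [← hbJ]
      show b (J x) = b x
      rw [hJx]
    rw [h3, hDxx]
  rw [c5] at c4
  -- `r` commutes with `D (b⁻¹ x)`
  have c6 := (h.D_cent hrG (b⁻¹ x)).2 c4
  have h7 : D L J (b⁻¹ x) = b⁻¹ * b⁻¹ * D L J x := by
    rw [← h.D_conj (G.inv_mem hb.1), inv_inv]
    calc b⁻¹ * D L J x * b = b⁻¹ * D L J x * b * (D L J x * D L J x) := by rw [hDD, mul_one]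
      _ = b⁻¹ * (D L J x * b * D L J x) * D L J x := by group
      _ = b⁻¹ * b⁻¹ * D L J x := by rw [hzb]
  rw [h7] at c6
  have c7 : r * (b⁻¹ * b⁻¹) = (b⁻¹ * b⁻¹) * r := by
    have h8 : r * (b⁻¹ * b⁻¹) * D L J x = (b⁻¹ * b⁻¹) * r * D L J x := by
      calc r * (b⁻¹ * b⁻¹) * D L J x = r * (b⁻¹ * b⁻¹ * D L J x) := by group
        _ = b⁻¹ * b⁻¹ * D L J x * r := c6
        _ = b⁻¹ * b⁻¹ * (D L J x * r) := by group
        _ = b⁻¹ * b⁻¹ * (r * D L J x) := by rw [c1]
        _ = (b⁻¹ * b⁻¹) * r * D L J x := by group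
    exact mul_right_cancel h8
  have c8 : b * b * r = r * (b * b) := by
    calc b * b * r = b * b * (r * (b⁻¹ * b⁻¹)) * (b * b) := by group
      _ = b * b * ((b⁻¹ * b⁻¹) * r) * (b * b) := by rw [c7]
      _ = r * (b * b) := by group
  exact (comm_of_sq hn hbn c8).symm

end AL

end ALoop
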