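import Pool.Agent.H4.NS.Key
import Pool.Agent.H4.IS.Ext

set_option autoImplicit false

/-!
An abelian normal `p`-subgroup of the inner mapping group is trivial.
-/

namespace ALoop

open Equiv MulAction

theorem inv_alt {M : Type*} [Group M] {m r : M} (h1 : m * r * m⁻¹ = r⁻¹) (i : ℕ) :
    m ^ (2 * i) * r * (m ^ (2 * i))⁻¹ = r := by
  have h2 : m * r⁻¹ * m⁻¹ = r := by
    have h3 : m * r⁻¹ * m⁻¹ = (m * r * m⁻¹)⁻¹ := by group
    rw [h3, h1, inv_inv]
  have h3 : m ^ 2 * r * (m ^ 2)⁻¹ = r := by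
    calc m ^ 2 * r * (m ^ 2)⁻¹ = m * (m * r * m⁻¹) * m⁻¹ := by rw [pow_two]; group
      _ = r := by rw [h1, h2]
  have h4 : Commute (m ^ 2) r := by
    show m ^ 2 * r = r * m ^ 2
    calc m ^ 2 * r = (m ^ 2 * r * (m ^ 2)⁻¹) * m ^ 2 := by group
      _ = r * m ^ 2 := by rw [h3]
  have h5 := (h4.pow_left i).eq
  rw [← pow_mul] at h5
  rw [h5]; group

theorem eq_one_of_inv {M : Type*} [Group M] {r : M} {n : ℕ} (hn : Odd n) (hr : r ^ n = 1)
    (h : r = r⁻¹) : r = 1 := by
  have h1 : r * r = 1 := by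
    calc r * r = r * r⁻¹ := by rw [← h]
      _ = 1 := mul_inv_cancel r
  obtain ⟨k, rfl⟩ := hn
  rw [pow_succ, pow_mul, pow_two, h1, one_pow, one_mul] at hr
  exact hr

theorem even_order {M : Type*} [Group M] {m r : M} {n : ℕ} (hn : Odd n) (hr : r ^ n = 1)
    (hr1 : r ≠ 1) (h1 : m * r * m⁻¹ = r⁻¹) : Even (orderOf m) := by
  by_contra hodd
  rw [Nat.not_even_iff_odd] at hodd
  obtain ⟨i, hi⟩ := hodd
  apply hr1
  apply eq_one_of_inv hn hr
  have h2 := inv_alt h1 i
  have h3 : m ^ (2 * i) = m⁻¹ := by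
    have h4 := pow_orderOf_eq_one m
    rw [hi, pow_succ] at h4
    exact eq_inv_of_mul_eq_one_left h4
  rw [h3, inv_inv] at h2
  calc r = m * (m⁻¹ * r * m) * m⁻¹ := by group
    _ = m * r * m⁻¹ := by rw [h2]
    _ = r⁻¹ := h1

variable {Q : Type*} {G : Subgroup (Perm Q)} {L : Q → Perm Q} {J : Perm Q} {e : Q}

namespace AL

/-- the elements `(D q J) ^ j J` are of the form `D p` -/
theorem pow_D (h : AL G L J e) (q : Q) (j : ℕ) :
    ∃ p, D L J p = (D L J q * J) ^ j * J := by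
  have hJJ := h.JJ1
  have hDD := h.D_sq q
  have hmG : D L J q * J ∈ G := by
    have h1 := h.D_mul_mem q e
    rw [h.D_e] at h1
    exact h1
  set m := D L J q * J with hm
  have hmi : m⁻¹ = J * D L J q := by
    rw [hm, mul_inv_rev, h.Jinv, inv_eq_of_mul_eq_one_left hDD]
  have hJm : J * m * J = m⁻¹ := by
    rw [hmi, hm]
    calc J * (D L J q * J) * J = J * D L J q * (J * J) := by group
      _ = J * D L J q := by rw [hJJ, mul_one]
  have hDm : D L J q * m * D L J q = m⁻¹ := by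
    rw [hmi, hm]
    calc D L J q * (D L J q * J) * D L J q = (D L J q * D L J q) * J * D L J q := by group
      _ = J * D L J q := by rw [hDD, one_mul]
  have hpowJ : ∀ i : ℕ, J * (m ^ i)⁻¹ = m ^ i * J := by
    intro i
    induction i with
    | zero => simp
    | succ i ih =>
      have h1 : J * m⁻¹ = m * J := by
        have h2 : m⁻¹ * J = J * m := by
          rw [← hJm]
          calc J * m * J * J = J * m * (J * J) := by group
            _ = J * m := by rw [hJJ, mul_one]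
        calc J * m⁻¹ = J * (m⁻¹ * J) * J⁻¹ := by group
          _ = J * (J * m) * J⁻¹ := by rw [h2]
          _ = (J * J) * m * J⁻¹ := by group
          _ = m * J := by rw [hJJ, one_mul, h.Jinv]
      calc J * (m ^ (i + 1))⁻¹ = (J * (m ^ i)⁻¹) * m⁻¹ := by rw [pow_succ']; group
        _ = m ^ i * (J * m⁻¹) := by rw [ih]; group
        _ = m ^ i * (m * J) := by rw [h1]
        _ = m ^ (i + 1) * J := by rw [pow_succ]; group
  rcases Nat.even_or_odd' j with ⟨i, hi | hi⟩
  · refine ⟨(m ^ i) e, ?_⟩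
    rw [← h.D_conj (G.pow_mem hmG i), h.D_e, mul_assoc, hpowJ, hi, two_mul, pow_add, mul_assoc]
  · refine ⟨(m ^ i) q, ?_⟩
    rw [← h.D_conj (G.pow_mem hmG i)]
    have h1 : D L J q = m * J := by
      rw [hm, mul_assoc, hJJ, mul_one]
    calc m ^ i * D L J q * (m ^ i)⁻¹ = m ^ i * (m * J) * (m ^ i)⁻¹ := by rw [← h1]
      _ = m ^ i * m * (J * (m ^ i)⁻¹) := by group
      _ = m ^ i * m * (m ^ i * J) := by rw [hpowJ]
      _ = m ^ j * J := by rw [hi, two_mul, pow_succ, pow_add]; group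

/-- the only fixed point of a nontrivial normal subgroup of the inner mapping group -/
theorem fix_normal (h : AL G L J e) {R : Subgroup (Perm Q)} (hR : R ≤ Inn G e) (hne : R ≠ ⊥)
    (hnorm : ∀ g ∈ Inn G e, ∀ a ∈ R, g * a * g⁻¹ ∈ R) {q : Q} (hq : ∀ a ∈ R, a q = q) : q = e := by
  have hcom : ∀ a ∈ R, a * L q = L q * a := fun a ha => h.comL (hR ha).1 (hR ha).2 (hq a ha)
  have h1 := h.norm_fix (S := R) (fun s hs => (hR hs).2)
    (fun g hg hge s hs => hnorm g ⟨hg, hge⟩ s hs) hne (h.memL q) (by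
      intro s
      constructor
      · intro hs
        rw [← hcom s hs, mul_inv_cancel_right]
        exact hs
      · intro hs
        have h2 := hcom _ hs
        have h3 : s = L q * s * (L q)⁻¹ := by
          calc s = (L q)⁻¹ * (L q * s * (L q)⁻¹ * L q) := by group
            _ = (L q)⁻¹ * (L q * (L q * s * (L q)⁻¹)) := by rw [h2]
            _ = L q * s * (L q)⁻¹ := by group
        rw [h3]; exact hs)
  rw [h.Le] at h1
  exact h1

theorem no_abelian_p [Finite Q] (h : AL G L J e) (hcardQ : 2 ∣ Nat.card Q) {p : ℕ}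
    (hp : p.Prime) {R : Subgroup (Perm Q)} (hR : R ≤ Inn G e) (hRp : IsPGroup p R)
    (hcomm : ∀ a ∈ R, ∀ b ∈ R, a * b = b * a)
    (hnorm : ∀ g ∈ Inn G e, ∀ a ∈ R, g * a * g⁻¹ ∈ R) : R = ⊥ := by
  classical
  by_contra hne
  have : Fact p.Prime := ⟨hp⟩
  have hfix : ∀ q : Q, (∀ a ∈ R, a q = q) → q = e := fun q hq => h.fix_normal hR hne hnorm hq
  have hJJ := h.JJ1
  -- `p` does not divide the order of `Q`
  have hpQ : ¬ p ∣ Nat.card Q := by
    have h1 := hRp.card_modEq_card_fixedPoints Q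
    have h2 : Nat.card (fixedPoints R Q) = 1 := by
      rw [Nat.card_eq_one_iff_unique]
      refine ⟨⟨?_⟩, ⟨e, fun a => (hR a.2).2⟩⟩
      intro a b
      apply Subtype.ext
      rw [hfix a (fun c hc => a.2 ⟨c, hc⟩), hfix b (fun c hc => b.2 ⟨c, hc⟩)]
    rw [h2] at h1
    intro h3
    have h4 : 1 ≡ 0 [MOD p] := h1.symm.trans ((Nat.modEq_zero_iff_dvd).2 h3)
    have h5 := (Nat.modEq_zero_iff_dvd).1 h4
    exact hp.one_lt.ne' (Nat.dvd_one.1 h5)
  have hpodd : Odd p := by
    rcases hp.eq_two_or_odd' with h2 | h2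
    · exact absurd (h2 ▸ hcardQ) hpQ
    · exact h2
  have hodd : ∀ a ∈ R, ∃ n, Odd n ∧ a ^ n = 1 := by
    intro a ha
    obtain ⟨k, hk⟩ := hRp ⟨a, ha⟩
    exact ⟨p ^ k, hpodd.pow, by simpa using congrArg Subtype.val hk⟩
  -- the involution with the largest stabiliser
  have hXne : Nonempty {x : Q // J x = x ∧ x ≠ e} := by
    obtain ⟨S, hS⟩ := exists_syl (Inn G e)
    obtain ⟨x, hxe, hJx, -⟩ := h.exists_x2 hcardQ hS
    exact ⟨⟨x, hJx, hxe⟩⟩
  obtain ⟨⟨x, hJx, hxe⟩, hmax⟩ := Finite.exists_max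
    (fun x : {x : Q // J x = x ∧ x ≠ e} => Nat.card {a : Perm Q // a ∈ R ∧ a x.1 = x.1})
  -- `z`
  have hDJ : D L J x * J = J * D L J x := h.Dx_J hJx
  have hDD := h.D_sq x
  have hzG : D L J x * J ∈ G := by
    have h1 := h.D_mul_mem x e
    rw [h.D_e] at h1
    exact h1
  have hze : (D L J x * J) e = e := by
    apply h.centJ hzG
    rw [mul_assoc, hJJ, mul_one, hDJ, ← mul_assoc, hJJ, one_mul]
  have hzz : (D L J x * J) * (D L J x * J) = 1 := by
    calc (D L J x * J) * (D L J x * J) = (D L J x * J) * (J * D L J x) := by rw [hDJ]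
      _ = D L J x * (J * J) * D L J x := by group
      _ = 1 := by rw [hJJ, mul_one, hDD]
  set z := D L J x * J with hz
  have hzi : z⁻¹ = z := inv_eq_of_mul_eq_one_left hzz
  have hRJ : ∀ a ∈ R, a * J = J * a := fun a ha => h.comJ a (hR ha).1 (hR ha).2
  have hzR : ∀ a ∈ R, z * a * z ∈ R := by
    intro a ha
    have h1 := hnorm z ⟨hzG, hze⟩ a ha
    rwa [hzi] at h1
  obtain ⟨r0, hr0, hr0z⟩ : ∃ r0 ∈ R, z * r0 * z ≠ r0 := by
    by_contra hcon
    push Not at hcon
    apply hxe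
    apply hfix
    intro a ha
    rw [← h.D_cent (hR ha).1]
    have h1 : D L J x = z * J := by rw [hz, mul_assoc, hJJ, mul_one]
    have h2 : a * z = z * a := by
      calc a * z = (z * a * z) * z := by rw [hcon a ha]
        _ = z * a * (z * z) := by group
        _ = z * a := by rw [hzz, mul_one]
    rw [h1]
    calc a * (z * J) = (a * z) * J := by group
      _ = z * (a * J) := by rw [h2]; group
      _ = z * J * a := by rw [hRJ a ha]; group
  set b := r0⁻¹ * (z * r0 * z) with hb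
  have hbR : b ∈ R := R.mul_mem (R.inv_mem hr0) (hzR r0 hr0)
  have hb1 : b ≠ 1 := by
    intro h1
    apply hr0z
    calc z * r0 * z = r0 * (r0⁻¹ * (z * r0 * z)) := by group
      _ = r0 := by rw [← hb, h1, mul_one]
  have hzb : z * b * z = b⁻¹ := by
    rw [hb]
    calc z * (r0⁻¹ * (z * r0 * z)) * z = z * r0⁻¹ * z * r0 * (z * z) := by group
      _ = z * r0⁻¹ * z * r0 := by rw [hzz, mul_one]
      _ = z⁻¹ * r0⁻¹ * z⁻¹ * r0 := by rw [hzi]
      _ = (r0⁻¹ * (z * r0 * z))⁻¹ := by group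
  have hDb : D L J x * b * D L J x = b⁻¹ := by
    have h1 : D L J x = z * J := by rw [hz, mul_assoc, hJJ, mul_one]
    have h2 : D L J x = J * z := by rw [hDJ, ← mul_assoc, hJJ, one_mul]
    calc D L J x * b * D L J x = (z * J) * b * (J * z) := by rw [← h1, ← h2]
      _ = z * (J * b) * J * z := by group
      _ = z * (b * J) * J * z := by rw [hRJ b hbR]
      _ = z * b * (J * J) * z := by group
      _ = b⁻¹ := by rw [hJJ, mul_one, hzb]
  obtain ⟨n, hn, hbn⟩ := hodd b hbR
  obtain ⟨k1, k2, k3⟩ := h.key_comm hJx (hR hbR) hn hbn hDb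
  set r := (L x)⁻¹ * b * L x with hr
  have hrG : r ∈ G := G.mul_mem (G.mul_mem (G.inv_mem (h.memL x)) (hR hbR).1) (h.memL x)
  have hrpow : ∀ j : ℕ, r ^ j = (L x)⁻¹ * b ^ j * L x := by
    intro j
    have h2 := conj_pow (i := j) (a := (L x)⁻¹) (b := b)
    rw [inv_inv] at h2
    exact h2
  have hrn : r ^ n = 1 := by rw [hrpow, hbn, mul_one, inv_mul_cancel]
  have hr1 : r ≠ 1 := by
    intro h1
    apply hb1
    calc b = L x * r * (L x)⁻¹ := by rw [hr]; group
      _ = 1 := by rw [h1]; group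
  -- the group `R1`
  set R1 : Subgroup (Perm Q) := R ⊓ Subgroup.centralizer {r} with hR1
  have memR1 : ∀ a, a ∈ R1 ↔ a ∈ R ∧ r * a = a * r := by
    intro a
    rw [hR1, Subgroup.mem_inf, Subgroup.mem_centralizer_singleton_iff]
    exact and_congr_right fun _ => eq_comm
  have hA1 : ∀ a ∈ R, a x = x → a ∈ R1 := by
    intro a ha hax
    rw [memR1]
    refine ⟨ha, ?_⟩
    have h1 := h.comL (hR ha).1 (hR ha).2 hax
    have h2 := hcomm a ha b hbR
    have h3 : (L x)⁻¹ * a = a * (L x)⁻¹ := by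
      calc (L x)⁻¹ * a = (L x)⁻¹ * (a * L x) * (L x)⁻¹ := by group
        _ = (L x)⁻¹ * (L x * a) * (L x)⁻¹ := by rw [h1]
        _ = a * (L x)⁻¹ := by group
    calc r * a = (L x)⁻¹ * b * (L x * a) := by rw [hr]; group
      _ = (L x)⁻¹ * (b * a) * L x := by rw [← h1]; group
      _ = ((L x)⁻¹ * a) * b * L x := by rw [← h2]; group
      _ = a * r := by rw [h3, hr]; group
  have hbR1 : b ∈ R1 := (memR1 b).2 ⟨hbR, k3⟩
  have hbx : b x ≠ x := by
    intro h1
    have h2 := (h.D_cent (hR hbR).1 x).2 h1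
    apply hb1
    apply eq_one_of_inv hn hbn
    calc b = b * (D L J x * D L J x) := by rw [hDD, mul_one]
      _ = (b * D L J x) * D L J x := by group
      _ = D L J x * b * D L J x := by rw [h2]
      _ = b⁻¹ := hDb
  -- a common fixed point
  obtain ⟨q, hq⟩ : ∃ q : Q, (∀ a ∈ R1, a q = q) ∧ r q = q := by
    have hR1p : IsPGroup p R1 := hRp.to_le inf_le_left
    have hrp : IsPGroup p (Subgroup.zpowers r) := by
      obtain ⟨k, hk⟩ := hRp ⟨b, hbR⟩
      have hk' : b ^ p ^ k = 1 := by simpa using congrArg Subtype.val hk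
      rintro ⟨_, i, rfl⟩
      refine ⟨k, ?_⟩
      apply Subtype.ext
      show (r ^ i) ^ p ^ k = 1
      rw [← zpow_natCast, ← zpow_mul, mul_comm, zpow_mul, zpow_natCast, hrpow, hk', mul_one,
        inv_mul_cancel, one_zpow]
    have hA : IsPGroup p (R1 ⊔ Subgroup.zpowers r : Subgroup (Perm Q)) := by
      apply IsPGroup.to_sup_of_normal_right' hR1p hrp
      intro s hs
      rw [Subgroup.mem_normalizer_iff]
      have hsr : Commute s r := ((memR1 s).1 hs).2.symm
      intro y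
      constructor
      · rintro ⟨i, rfl⟩
        refine ⟨i, ?_⟩
        show r ^ i = s * r ^ i * s⁻¹
        rw [(hsr.zpow_right i).eq]; group
      · rintro ⟨i, hi⟩
        refine ⟨i, ?_⟩
        show r ^ i = y
        have h1 : s * y * s⁻¹ = r ^ i := hi.symm
        calc r ^ i = s⁻¹ * (s * r ^ i) := by group
          _ = s⁻¹ * (r ^ i * s) := by rw [(hsr.zpow_right i).eq]
          _ = s⁻¹ * (s * y * s⁻¹ * s) := by rw [h1]
          _ = y := by group
    obtain ⟨q, hq⟩ := hA.nonempty_fixed_point_of_prime_not_dvd_card Q hpQ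
    refine ⟨q, fun a ha => ?_, ?_⟩
    · exact hq ⟨a, (le_sup_left : R1 ≤ _) ha⟩
    · exact hq ⟨r, (le_sup_right : Subgroup.zpowers r ≤ _) (Subgroup.mem_zpowers r)⟩
  obtain ⟨hqR, hqr⟩ := hq
  -- `m = D q * J` inverts `r`
  have hDqD := h.D_sq q
  have hmG : D L J q * J ∈ G := by
    have h1 := h.D_mul_mem q e
    rw [h.D_e] at h1
    exact h1
  have hrD := (h.D_cent hrG q).2 hqr
  have hDqi : (D L J q)⁻¹ = D L J q := inv_eq_of_mul_eq_one_left hDqD
  set m := D L J q * J with hm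
  have hmi : m⁻¹ = J * D L J q := by rw [hm, mul_inv_rev, h.Jinv, hDqi]
  have hmr : m * r * m⁻¹ = r⁻¹ := by
    have h1 : r⁻¹ * D L J q = D L J q * r⁻¹ := by
      calc r⁻¹ * D L J q = r⁻¹ * (D L J q * r) * r⁻¹ := by group
        _ = r⁻¹ * (r * D L J q) * r⁻¹ := by rw [hrD]
        _ = D L J q * r⁻¹ := by group
    calc m * r * m⁻¹ = D L J q * (J * r * J) * D L J q := by rw [hmi, hm]; group
      _ = D L J q * (r⁻¹ * D L J q) := by rw [k2]; group
      _ = (D L J q * D L J q) * r⁻¹ := by rw [h1]; group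
      _ = r⁻¹ := by rw [hDqD, one_mul]
  obtain ⟨k, hk⟩ := even_order hn hrn hr1 hmr
  have hmo := pow_orderOf_eq_one m
  have hopos := orderOf_pos m
  have huu : m ^ k * m ^ k = 1 := by rw [← pow_add, ← hk, hmo]
  have hu1 : m ^ k ≠ 1 := by
    intro h1
    have h2 := Nat.le_of_dvd (by omega) (orderOf_dvd_of_pow_eq_one h1)
    omega
  obtain ⟨x', hx'⟩ := h.pow_D q k
  rw [← hm] at hx'
  set u := m ^ k with hu
  have hui : u⁻¹ = u := inv_eq_of_mul_eq_one_left huu
  -- `J` commutes with `u`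
  have hJu : J * u * J = u := by
    have h1 := h.D_sq x'
    rw [hx'] at h1
    have h2 : u * (J * u * J) = 1 := by
      calc u * (J * u * J) = u * J * (u * J) := by group
        _ = 1 := h1
    calc J * u * J = u * (u * (J * u * J)) := by rw [← mul_assoc, huu, one_mul]
      _ = u := by rw [h2, mul_one]
  have hJx' : J x' = x' := by
    apply h.D_inj
    rw [← h.D_J, hx']
    calc J * (u * J) * J = (J * u * J) * J := by group
      _ = u * J := by rw [hJu]
  have hx'e : x' ≠ e := by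
    intro h1
    apply hu1
    rw [h1, h.D_e] at hx'
    calc u = (u * J) * J := by rw [mul_assoc, hJJ, mul_one]
      _ = 1 := by rw [← hx', hJJ]
  -- the stabiliser of `x'` is larger
  have hA2 : ∀ a ∈ R1, a ∈ R ∧ a x' = x' := by
    intro a ha
    have haR := ((memR1 a).1 ha).1
    refine ⟨haR, ?_⟩
    have haG := (hR haR).1
    rw [← h.D_cent haG, hx']
    have h1 : Commute a (D L J q) := (h.D_cent haG q).2 (hqR a ha)
    have h2 : Commute a J := hRJ a haR
    have h3 : Commute a m := h1.mul_right h2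
    have h4 : Commute a (u * J) := (h3.pow_right k).mul_right h2
    exact h4.eq
  have hle := hmax ⟨x', hJx', hx'e⟩
  have hlt : Set.ncard {a : Perm Q | a ∈ R ∧ a x = x} <
      Set.ncard {a : Perm Q | a ∈ R ∧ a x' = x'} :=
    Set.ncard_lt_ncard ⟨fun a ha => hA2 a (hA1 a ha.1 ha.2),
      fun hsub => hbx (hsub (hA2 b hbR1)).2⟩ (Set.toFinite _)
  exact absurd hle (not_le.2 hlt)

end AL

end ALoop
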